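import Pool.Agent.J6H49.EE.Main

/-!
# `E`-bi-immune sets in `NE`, although `ESPACE` is nearly in `E`

`E`, `NE`, `ESPACE` are the classes of the languages decided in deterministic time, nondeterministic
time and space `2 ^ O(n)`. We show that for almost every random oracle (joined with one fixed table
`T`, with any other oracle `E₀`, and with information `E` which makes it possible to decide all the
problems in `ESPACE` in time `2 ^ O(n * β n)`, for an arbitrarily slow unbounded function `β`) the
separation of `E` and `NE` holds in the strongest form: some set in `NE` is bi-immune for `E`, that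
is, every infinite set in `E` meets this set and its complement. The same is true for all the
consecutive levels of the linear-exponential hierarchy.
-/

set_option autoImplicit false

namespace Pool.Agent.Results.MP_8c2300_lc.BiImmuneNE

open Pool.Agent.H620R2.Gauge Pool.Agent.H591R3.PHG MeasureTheory
open Pool.Agent.J6H7.RO (randomOracle)
open Pool.Agent.J6H49.BI (fair)
open Pool.Agent.J6H49.EE (LinExp InExpTime)
open Pool.Agent.TH678.GC (join)

/-- The set `L` is bi-immune for the class `C`: no infinite set in `C` is contained in `L` or in
the complement of `L`. -/
def BiImmune (C : Set (List Bool) → Prop) (L : Set (List Bool)) : Prop :=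
  ∀ S : Set (List Bool), C S → S.Infinite → ¬ S ⊆ L ∧ ¬ S ⊆ Lᶜ

/-- Let `β : ℕ → ℕ` be nondecreasing and unbounded. There are an oracle `T` and a map `E` on the
oracles such that

* for every oracle `B`, relative to the join of `B` and `E B` all the problems in linear-exponential
  space are decided in time `2 ^ O(n * (β n + 1))`;
* for every oracle `E₀`, for almost every oracle `A` (for the fair random oracle), if `B` is the
  join of `A`, `E₀` and `T`, then relative to the join of `B` and `E B`, for every `k ≥ 0` there is
  a set in the level `Σ_{k+1}` of the linear-exponential hierarchy which is bi-immune for the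
  level `Σ_k`. (For `k = 0`: there is a set in `NE` which is bi-immune for `E`.) -/
theorem result (β : ℕ → ℕ) (hβ : Monotone β) (hβ' : Filter.Tendsto β Filter.atTop Filter.atTop) :
    ∃ (T : Oracle) (E : Oracle → Oracle),
      (∀ B : Oracle, ∀ L, LinExp (IsPSPACE (join B (E B))) L → InExpTime β (join B (E B)) L) ∧
      ∀ E₀ : Oracle, ∀ᵐ A ∂(randomOracle fun _ => fair), ∀ k : ℕ, ∃ L : Set (List Bool),
        LinExp (IsSig (join (join (join A E₀) T) (E (join (join A E₀) T))) (k + 1)) L ∧
        BiImmune (LinExp (IsSig (join (join (join A E₀) T) (E (join (join A E₀) T))) k)) L := by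
  obtain ⟨T, E, h1, h2⟩ := Pool.Agent.J6H49.EE.main β hβ hβ'
  refine ⟨T, E, h1, fun E₀ => ?_⟩
  filter_upwards [h2 E₀] with A hA k
  exact hA k

end Pool.Agent.Results.MP_8c2300_lc.BiImmuneNE
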