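import Pool.Agent.J6H49.ES.Main

/-!
# `E = NE = ESPACE`, and everything else above polynomial collapses, but `NP` is far from `coNP`

If `P = NP` then `E = NE`. How far is the converse from the truth? We show that for relativizing
proofs nothing at all follows for `P` and `NP`, even from much more than `E = NE`: for every
superpolynomial function `t` (such as `n ^ log log n`, or much smaller) there are oracles relative
to which for every function `N ≥ t` deterministic time, nondeterministic time and space
`N(n) ^ O(1)` are the same (for `N(n) = 2 ^ (n + 1)`: `E = NE = ESPACE`), and nevertheless some
language in `coNP` has no interactive proof with polynomially many rounds and private coins, even if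
the proof must work only for infinitely many input lengths and the verifier may ask questions to any
set `T` of subexponential density.
-/

set_option autoImplicit false

namespace Pool.Agent.Results.MP_8c2300_lc.CollapseAbovePolynomial

open MeasureTheory Pool.Agent.NPC Pool.Agent.H628R3.RO Pool.Agent.J6H49.OP Pool.Agent.J6H49.IP
open Pool.Agent.J6H49.ES
open Pool.Agent.TH678.GC (join)

/-- Let `t : ℕ → ℕ` be superpolynomial (for every `k`, `n ^ k ≤ t n` for all large `n`) and let `C`
be any oracle. There is a map `O` on the oracles such that for every `A`, `O A` contains `A` and `C`
and everything at least as large as `t` collapses relative to `O A` (deterministic time,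
nondeterministic time and space `N(n) ^ O(1)` are the same for every `N ≥ t`), and for a random
oracle `A` (fair coin tosses), with probability one, there is a language `L` in `coNP` relative to
`O A` such that for every set `T` of subexponential density, `L` has no interactive proof relative
to `O A` and `T` which is correct for infinitely many input lengths. -/
theorem result (t : ℕ → ℕ) (ht : Superpoly t) (C : Oracle) : ∃ O : Oracle → Oracle,
      (∀ A, CollapsedAbove t (O A) ∧ Contains (O A) A ∧ Contains (O A) C) ∧
      ∀ᵐ A ∂randomOracle, ∃ L : Set (List Bool), IsCoNP (O A) L ∧
        ∀ T : Oracle, SubexpDense T → ¬ IsIPio (join (O A) T) L := by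
  obtain ⟨O, h1, h2⟩ := Pool.Agent.J6H49.ES.main t ht C
  refine ⟨O, h1, ?_⟩
  filter_upwards [h2] with A hA
  obtain ⟨L, hL1, hL2⟩ := hA
  refine ⟨Lᶜ, ?_, hL2⟩
  unfold IsCoNP
  rw [compl_compl]
  exact hL1

end Pool.Agent.Results.MP_8c2300_lc.CollapseAbovePolynomial
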