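import Pool.Agent.J6H31.AV.Final

/-!
# MP_8c2300_lc: optimal average-case hardness of NE in nearly collapsed worlds
-/

set_option autoImplicit false

namespace Pool.Agent.Results.MP_8c2300_lc.OptimalAverageHardness

open Pool.Agent.H620R2.Gauge (Oracle IsFP IsPSPACE)
open Pool.Agent.H591R3.PHG (IsSig)
open Pool.Agent.J6H7.RO (randomOracle)
open Pool.Agent.TH678.GC (join)
open Pool.Agent.J6H49.BI (fair)
open Pool.Agent.J6H49.EE (padE LinExp InExpTime)
open Pool.Agent.J6H31.AV (success)
open Pool.Agent.NPC (pairBits)
open MeasureTheory Filter

/-- Let `β` be nondecreasing and unbounded, and let `μ n ≤ 2 ^ (n + 1)` for all `n`. There are an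
oracle `T` and a map `E` on oracles such that

* relative to `join B (E B)`, for every oracle `B`, everything in linear-exponential space is
  decided in time `2 ^ O(n * (β n + 1))`;
* for every oracle `E₀`, almost surely for the fair random oracle `A`, relative to the oracle
  `O = join B (E B)` with `B = join (join A E₀) T`, there is a language `L` in nondeterministic
  linear-exponential time, with `μ n` guessed bits, with the following property. For every
  probabilistic machine which runs in linear-exponential time relative to `O`, with `k` alternating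
  quantifiers over strings of length at most `g` and any advice string `w`, there is a constant `C`
  such that for `n ≥ C` and `k * (g + 1) + C * n ≤ μ n` the average success is at most
  `2 ^ n / 2 + √(2 ^ n * (|w| + n))` on the `2 ^ n` strings of length `n`. -/
theorem result (β : ℕ → ℕ) (hβ : Monotone β) (hβ' : Tendsto β atTop atTop)
    (μ : ℕ → ℕ) (hμ : ∀ n, μ n ≤ 2 ^ (n + 1)) :
    ∃ (T : Oracle) (E : Oracle → Oracle),
      (∀ B : Oracle, ∀ L, LinExp (IsPSPACE (join B (E B))) L → InExpTime β (join B (E B)) L) ∧
      ∀ E₀ : Oracle, ∀ᵐ A ∂(randomOracle fun _ => fair), ∀ O : Oracle,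
        O = join (join (join A E₀) T) (E (join (join A E₀) T)) →
        ∃ L : Set (List Bool), LinExp (IsSig O 1) L ∧
          (∃ V : List Bool → List Bool, IsFP O V ∧ ∀ x, x ∈ L ↔
            ∃ y : List Bool, y.length = μ x.length ∧ V (pairBits y (padE 1 x)) = [true]) ∧
          ∀ V : List Bool → List Bool, IsFP O V → ∀ k c : ℕ, ∃ C : ℕ, ∀ n ≥ C,
            ∀ (w : List Bool) (g : ℕ), k * (g + 1) + C * n ≤ μ n →
              success V k g (2 ^ (c * (n + 1))) n w L ≤
                2 ^ n / 2 + Real.sqrt (2 ^ n * (w.length + n)) :=
  Pool.Agent.J6H31.AV.main β hβ hβ' μ hμ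

end Pool.Agent.Results.MP_8c2300_lc.OptimalAverageHardness
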