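import Pool.Agent.J6H56.GA.MainU

/-!
# Unambiguous and co-unambiguous time `2 ^ O(n)` against randomized time `2 ^ O(n)` with advice

We show that, relative to generic oracles of a certain kind, `UE ∩ coUE`, the class of the languages
such that the language and its complement are accepted in nondeterministic time `2 ^ O(n)` with
unique witnesses, is as far as possible from `E`: for a language `L` in `UE ∩ coUE`, no machine in
deterministic or randomized time `2 ^ O(n)`, with any set of fewer than `2 ^ (2 ^ n)` advice strings
for the inputs of length `n`, is right for all inputs of length `n`, for infinitely many `n`; with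
fewer advice strings, all the machines are right for fewer inputs, according to the optimal
trade-off (the volume bound for covering codes). Nevertheless all the problems in `ESPACE` are
decided in time `2 ^ O(n * β n)`, for an arbitrarily slow unbounded function `β`.

The oracle contains a secret string of length `2 ^ (|x| + 1)` and a secret bit for every string `x`.
The machines do not find the secret strings, if these are outside of small sets, which depend on the
machine and on the advice strings, but not on the secret bits. Then each advice string leads to a
table of answers, and the table of the secret bits can be chosen far from all these tables.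
-/

set_option autoImplicit false

namespace Pool.Agent.Results.MP_8c2300_lc.UnambiguousAdvice

open Filter Pool.Agent.NPC Pool.Agent.H620R2.Gauge
open Pool.Agent.TH678.GC (join)
open Pool.Agent.J6H49.EE (padE LinExp InExpTime)
open Pool.Agent.J6H49.AM (pr)
open Pool.Agent.J6H56.GA (Secret ora IsUP)

/-- For every deterministic machine in time `2 ^ O(n)` with oracle `O` there are infinitely many `n`
such that with every advice string `w` in `W n` it is right for fewer than `t n` inputs of length
`n`. (The machine `V` works in polynomial time for the input `x`, padded with `2 ^ (c * (|x| + 1))`
ones, and the advice string.) -/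
def HardForE (W : ℕ → Finset (List Bool)) (t : ℕ → ℕ) (O : Oracle) (L : Set (List Bool)) : Prop :=
  ∀ (V : List Bool → List Bool) (c : ℕ), IsFP O V → ∃ᶠ n in atTop, ∀ w ∈ W n,
    {x : List Bool | x.length = n ∧ (V (pairBits (padE c x) w) = [true] ↔ x ∈ L)}.ncard < t n

/-- For every randomized machine in time `2 ^ O(n)` with oracle `O` there are infinitely many `n`
such that with every advice string `w` in `W n` it is right for fewer than `t n` inputs of length
`n`; it is right for `x` if it accepts with probability at least `2 / 3` if `x` is in `L`, and with
probability at most `1 / 3` if `x` is not in `L`. -/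
def HardForBPE (W : ℕ → Finset (List Bool)) (t : ℕ → ℕ) (O : Oracle) (L : Set (List Bool)) : Prop :=
  ∀ (V : List Bool → List Bool) (p : Polynomial ℕ) (c : ℕ), IsFP O V → ∃ᶠ n in atTop, ∀ w ∈ W n,
    {x : List Bool | x.length = n ∧
      ((x ∈ L → 2 / 3 ≤ pr (p.eval (padE c x).length) fun r =>
        V (pairBits (padE c x) (pairBits w r)) = [true]) ∧
      (x ∉ L → (pr (p.eval (padE c x).length) fun r =>
        V (pairBits (padE c x) (pairBits w r)) = [true]) ≤ 1 / 3))}.ncard < t n

/-- Let `β : ℕ → ℕ` be nondecreasing and unbounded. There is a map `E` on the oracles such that

* for every oracle `B`, relative to the join of `B` and `E B` all the problems in linear-exponential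
  space are decided in time `2 ^ O(n * (β n + 1))`;
* for every oracle `E₀`, all numbers `t n ≤ 2 ^ n` and all sets `W n` of strings of length at most
  `2 ^ n`, such that `|W n|` times the number of the sets of at least `t n` strings of length `n` is
  smaller than `2 ^ (2 ^ n)`: for all `s` in a comeager set of secrets, if `B` is the join of the
  oracle of `s` and `E₀`, then relative to the join of `B` and `E B` there is a language `L` in
  `UE ∩ coUE` such that for every deterministic or randomized machine in time `2 ^ O(n)`, for
  infinitely many `n`, with every advice string in `W n` the machine is right for fewer than `t n`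
  inputs of length `n`. -/
theorem result (β : ℕ → ℕ) (hβ : Monotone β) (hβ' : Tendsto β atTop atTop) :
    ∃ E : Oracle → Oracle,
      (∀ B : Oracle, ∀ L, LinExp (IsPSPACE (join B (E B))) L → InExpTime β (join B (E B)) L) ∧
      ∀ (E₀ : Oracle) (W : ℕ → Finset (List Bool)) (t : ℕ → ℕ), (∀ n, t n ≤ 2 ^ n) →
        (∀ n, (W n).card * ∑ i ∈ Finset.Icc (t n) (2 ^ n), (2 ^ n).choose i < 2 ^ 2 ^ n) →
        (∀ n, ∀ w ∈ W n, w.length ≤ 2 ^ n) →
        ∀ᶠ s in residual Secret, ∃ L : Set (List Bool),
          LinExp (IsUP (join (join (ora s) E₀) (E (join (ora s) E₀)))) L ∧
          LinExp (IsUP (join (join (ora s) E₀) (E (join (ora s) E₀)))) Lᶜ ∧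
          HardForE W t (join (join (ora s) E₀) (E (join (ora s) E₀))) L ∧
          HardForBPE W t (join (join (ora s) E₀) (E (join (ora s) E₀))) L :=
  Pool.Agent.J6H56.GA.mainU β hβ hβ'

end Pool.Agent.Results.MP_8c2300_lc.UnambiguousAdvice
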